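import Pool.Agent.helper84.NR.Spec

/-!
# Project NW (MP_133bfc_co, Theorem W): spec

`FNW_stmt`: in a polyhedral map with `χ ≥ -1` ANY two vertices `x`, `y` are joined by a path that meets every
face CONTAINING `x` OR `y` in a connected set (false for `χ = -2`). Final hand-in: this together with helper84's
`FIN` (project NR). Definitions and the statements IDX EDG DEG PAR PCF PCN WW0 LIN of
`Pool/Agent/helper84/NR/Spec.lean` are used as hypotheses (all proved there).

Row `XX`: file `Pool/Agent/<seat>/NW/XX.lean`, `import Pool.Agent.helper81.NW.Spec`,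
`namespace Pool.Agent.helper81.NW`, `open Pool.Agent.helper84.NR`, `open scoped Classical`, `open Finset`,
`theorem XX (h1 : YY_stmt) .. : XX_stmt`. Any statement of this file or of helper84's file except XX itself may be
used as a hypothesis (no circles: use only statements ABOVE). Auxiliary lemmas `XX_...`.

NOTATION. `B ∋ y`, `w k = ww M y B k` (`w 0 = y = w (len B)`); `k` is SHARED (`sh M x y B k`): `1 ≤ k < len B` and
`w k` is on a face containing `x`. For a face `A ∋ x` everything is used with `x`, `y` exchanged: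
`w i = ww M x A i`, shared: `sh M y x A i`. `u ≠ z` on a face with `z` on TWO faces with `z` iff adjacent to `z`
(`poly`, DEG (1), (2)); the neighbours of `z` on `A ∋ z` are `w 1`, `w (len A - 1)` (DEG (3), IDX).
-/

set_option autoImplicit false

namespace Pool.Agent.helper81.NW

open Pool.Agent.helper84.NR
open scoped Classical
open Finset

section
variable {V F : Type}

/-- A path from `x` to `y` which meets every face containing `x` or `y` in a connected set. -/
def WPath (M : Cyc V F) (x y : V) : Prop :=
  ∃ (n : ℕ) (q : ℕ → V), q 0 = x ∧ q n = y ∧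
    (∀ i j, i ≤ n → j ≤ n → q i = q j → i = j) ∧
    (∀ i, i < n → Adj M (q i) (q (i + 1))) ∧
    ∀ f, (OnV M f x ∨ OnV M f y) → ∀ i j, i ≤ j → j ≤ n → OnV M f (q i) → OnV M f (q j) →
      ∀ k, i ≤ k → k < j → OnE M f s(q k, q (k + 1))

/-- No common face, no common neighbour. -/
structure NF (M : PMap V F) (x y : V) : Prop where
  ne : ∀ f, ¬ (OnV M.toCyc f x ∧ OnV M.toCyc f y)
  ns : ∀ s, Adj M.toCyc x s → ¬ Adj M.toCyc s y

/-- first shared index -/
def fst (M : PMap V F) (x y : V) (B : F) (j : ℕ) : Prop :=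
  sh M x y B j ∧ ∀ k, sh M x y B k → j ≤ k

/-- last shared index -/
def lst (M : PMap V F) (x y : V) (B : F) (j : ℕ) : Prop :=
  sh M x y B j ∧ ∀ k, sh M x y B k → k ≤ j

/-- extreme shared index -/
def ext (M : PMap V F) (x y : V) (B : F) (j : ℕ) : Prop := fst M x y B j ∨ lst M x y B j

/-- An arm: a walk on the face `A` which starts at `x`; only `a 1` is adjacent to `x`; its vertices strictly
between the ends are on no face containing `y` except possibly `B`, and then the next edge is on `B`. -/
structure Arm (M : PMap V F) (x y : V) (A B : F) (m : ℕ) (a : ℕ → V) : Prop where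
  a0 : a 0 = x
  m1 : 1 ≤ m
  inj : ∀ i j, i ≤ m → j ≤ m → a i = a j → i = j
  ed : ∀ i, i < m → OnE M.toCyc A s(a i, a (i + 1))
  nx : ∀ i, 2 ≤ i → i ≤ m → ¬ Adj M.toCyc x (a i)
  ny : ∀ i, 1 ≤ i → i < m → ∀ B', OnV M.toCyc B' y → OnV M.toCyc B' (a i) →
    B' = B ∧ OnE M.toCyc B s(a i, a (i + 1))

/-- A strict arm: the vertices strictly between the ends are on no face containing `y`. -/
structure SArm (M : PMap V F) (x y : V) (A : F) (m : ℕ) (a : ℕ → V) : Prop where
  a0 : a 0 = x
  m1 : 1 ≤ m
  inj : ∀ i j, i ≤ m → j ≤ m → a i = a j → i = j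
  ed : ∀ i, i < m → OnE M.toCyc A s(a i, a (i + 1))
  nx : ∀ i, 2 ≤ i → i ≤ m → ¬ Adj M.toCyc x (a i)
  ny : ∀ i, 1 ≤ i → i < m → ∀ B', OnV M.toCyc B' y → ¬ OnV M.toCyc B' (a i)

/-- Weakly bad. -/
structure WBad (M : PMap V F) (x y : V) : Prop extends NF M x y where
  wb : ∀ A B i j, OnV M.toCyc A x → OnV M.toCyc B y → ext M y x A i → ext M x y B j →
    OnV M.toCyc B (ww M x A i) → ¬ OnV M.toCyc A (ww M y B j)
  me : ∃ A B v, OnV M.toCyc A x ∧ OnV M.toCyc B y ∧ OnV M.toCyc A v ∧ OnV M.toCyc B v

/-- edge on a face containing `z` -/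
def onF (M : PMap V F) (z : V) (e : Sym2 V) : Prop := ∃ A, OnV M.toCyc A z ∧ OnE M.toCyc A e

/-- shared vertex -/
def shv (M : PMap V F) (x y v : V) : Prop :=
  (∃ A, OnV M.toCyc A x ∧ OnV M.toCyc A v) ∧ ∃ B, OnV M.toCyc B y ∧ OnV M.toCyc B v

/-- shared edge -/
def she (M : PMap V F) (x y : V) (e : Sym2 V) : Prop := onF M x e ∧ onF M y e

/-- edges of the segments of the faces `B ∋ y` (between the first and the last shared index) -/
def sgE (M : PMap V F) (x y : V) (e : Sym2 V) : Prop :=
  ∃ B, OnV M.toCyc B y ∧ ∃ k, inb M x y B k ∧ e = s(ww M y B k, ww M y B (k + 1))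

/-- vertices of these segments -/
def sgV (M : PMap V F) (x y v : V) : Prop :=
  ∃ B, OnV M.toCyc B y ∧ ∃ k, (∃ a, a ≤ k ∧ sh M x y B a) ∧ (∃ b, k ≤ b ∧ sh M x y B b) ∧
    v = ww M y B k

/-- The edge set `U`. -/
def UU (M : PMap V F) (x y : V) (e : Sym2 V) : Prop := sgE M x y e ∨ sgE M y x e

/-- The vertex set of `U`. -/
def VV (M : PMap V F) (x y v : V) : Prop := sgV M x y v ∨ sgV M y x v

/-- `f` and `g` are in the same class (connected through edges outside `U`). -/
def CL (M : PMap V F) (x y : V) (f g : F) : Prop :=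
  (Quot.mk (lk M (UU M x y)) f : Quot (lk M (UU M x y))) = Quot.mk _ g

/-- The class of `g` contains no face at `x` and no face at `y`. -/
def oth (M : PMap V F) (x y : V) (g : F) : Prop :=
  (∀ A, OnV M.toCyc A x → ¬ CL M x y A g) ∧ ∀ B, OnV M.toCyc B y → ¬ CL M x y B g

/-- the first edge of the gap `(B, k)` -/
noncomputable def ge (M : PMap V F) (y : V) (c : (_ : F) × ℕ) : Sym2 V :=
  s(ww M y c.1 c.2, ww M y c.1 (c.2 + 1))

/-- the gap `c` is across a class without faces at `x` or `y` -/
def go (M : PMap V F) (x y : V) (c : (_ : F) × ℕ) : Prop :=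
  ∃ g, OnE M.toCyc g (ge M y c) ∧ oth M x y g

end

section
variable {V F : Type} [Fintype V] [Fintype F]

/-- the pairs `(A, B)`, `A ∋ x`, `B ∋ y`, with a common vertex -/
noncomputable def PR (M : PMap V F) (x y : V) : Finset (F × F) :=
  univ.filter (fun p => OnV M.toCyc p.1 x ∧ OnV M.toCyc p.2 y ∧
    ∃ v, OnV M.toCyc p.1 v ∧ OnV M.toCyc p.2 v)

/-- the faces `A ∋ x` which meet a face containing `y` -/
noncomputable def FA (M : PMap V F) (x y : V) : Finset F :=
  univ.filter (fun A => OnV M.toCyc A x ∧ ∃ B v, OnV M.toCyc B y ∧ OnV M.toCyc A v ∧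
    OnV M.toCyc B v)

/-- the neighbours of `y` on a face containing `x` -/
noncomputable def sp (M : PMap V F) (x y : V) : Finset V :=
  univ.filter (fun t => Adj M.toCyc y t ∧ ∃ A, OnV M.toCyc A x ∧ OnV M.toCyc A t)

/-- the gaps of the faces `B ∋ y` -/
noncomputable def gps (M : PMap V F) (x y : V) : Finset ((_ : F) × ℕ) := gaps M x y (FA M y x)

/-- `Z = #pairs - n_A - n_B` -/
noncomputable def ZZ (M : PMap V F) (x y : V) : ℤ :=
  ((PR M x y).card : ℤ) - (FA M x y).card - (FA M y x).card

/-- number of the faces `A ∋ x` whose first shared index is not `1` and belongs to `v`, plus number of those whose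
last shared index is not `len A - 1` and belongs to `v` -/
noncomputable def rr (M : PMap V F) (x y v : V) : ℕ :=
  (univ.filter (fun A => OnV M.toCyc A x ∧ ∃ i, fst M y x A i ∧ i ≠ 1 ∧ ww M x A i = v)).card +
  (univ.filter (fun A => OnV M.toCyc A x ∧ ∃ i, lst M y x A i ∧ i + 1 ≠ M.len A ∧
    ww M x A i = v)).card

/-- edges at the shared vertex `v` of a segment of some `B ∋ y`, not on a face containing `x`, with a face, not
containing `y`, in the class of a face at `x` -/
noncomputable def HX (M : PMap V F) (x y v : V) : Finset (Sym2 V) :=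
  univ.filter (fun h => shv M x y v ∧ v ∈ h ∧ sgE M x y h ∧ ¬ onF M x h ∧
    ∃ g A, OnE M.toCyc g h ∧ ¬ OnV M.toCyc g y ∧ OnV M.toCyc A x ∧ CL M x y g A)

end

/-! ## Paths -/

/-- Hyp.: IDX, EDG, WW0. Every vertex `v ≠ x` of `A ∋ x` is reached by a walk on `A` from `x` on which only the first vertex
is adjacent to `x`. If `v` is adjacent to `x`: `m = 1`. Otherwise `v = w i`, `2 ≤ i ≤ len A - 2`, `a j = w j`. The
second part: `a j = w j` (first index) or `a j = w (len A - j)` (last index). -/
def ARM_stmt : Prop := ∀ (V F : Type) (M : PMap V F) (x y : V) (A : F), OnV M.toCyc A x →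
  (∀ v, OnV M.toCyc A v → v ≠ x → ∃ (m : ℕ) (a : ℕ → V), a 0 = x ∧ 1 ≤ m ∧ a m = v ∧
    (∀ i j, i ≤ m → j ≤ m → a i = a j → i = j) ∧ (∀ i, i < m → OnE M.toCyc A s(a i, a (i + 1))) ∧
    ∀ i, 2 ≤ i → i ≤ m → ¬ Adj M.toCyc x (a i)) ∧
  ∀ i, ext M y x A i → ∃ (m : ℕ) (a : ℕ → V), SArm M x y A m a ∧ a m = ww M x A i

/-- Hyp.: EDG. The path `a 0, ..., a m = b n, ..., b 0`. A face `A' ∋ x`, `A' ≠ A`, contains of the `a i` only `x` and possibly
`a 1` (`a i ∈ A ∩ A'` is adjacent to `x` by `poly`, `nx`), and none of `b j`, `j < n` (`ny` of `b`; `b 0 = y`). `A` contains all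
`a i`, with the edges, and no `b j`, `j < n`. A face `B' ∋ y`, `B' ≠ B`: contains only `y` and possibly `b 1` (`poly`, `nx` of
`b`; `ny` of `a` for the `a i`, `1 ≤ i < m`). `B` contains all `b j`, and with `a i` (`1 ≤ i < m`) also the edge `a i, a (i+1)`.
No repetition: `a i = b j`, `i < m`, `j < n` is impossible (`b j` is on no face with `x`, `x ∉ B`). -/
def JOI_stmt : Prop := ∀ (V F : Type) (M : PMap V F) (x y : V) (A B : F) (m n : ℕ) (a b : ℕ → V),
  (∀ f, ¬ (OnV M.toCyc f x ∧ OnV M.toCyc f y)) → OnV M.toCyc A x → OnV M.toCyc B y →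
  Arm M x y A B m a → SArm M y x B n b → a m = b n → WPath M.toCyc x y

/-- Hyp.: EDG, ARM, JOI. `v = w i ∈ A ∩ B`, `v' = w j ∈ A ∩ B`; strict arms `a` to `v`, `b` to `v'` (ARM; a strict arm is an arm).
`v = v'`: JOI. `v ≠ v'`: `s(v, v')` is an edge of `A` and of `B` (`poly`). If `v'` is adjacent to `x`: the arm `x, v'` (`m = 1`) and
`b`. If `v` is adjacent to `y`: `a` and the strict arm `y, v`. Otherwise the arm `a` prolonged by `a (m+1) = v'` (`v' ≠ a i`: the
`a i`, `1 ≤ i < m`, are on no face with `y`; `v` is on no other face `B' ∋ y`, otherwise adjacent to `y` by `poly`) and `b`. -/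
def ROU_stmt : Prop := ∀ (V F : Type) (M : PMap V F) (x y : V) (A B : F) (i j : ℕ),
  (∀ f, ¬ (OnV M.toCyc f x ∧ OnV M.toCyc f y)) → OnV M.toCyc A x → OnV M.toCyc B y →
  ext M y x A i → ext M x y B j → OnV M.toCyc B (ww M x A i) → OnV M.toCyc A (ww M y B j) →
  WPath M.toCyc x y

/-- Hyp.: none (EDG). The graph is connected. `S` = the faces all of whose vertices are reachable from `u`. A face with a reachable
vertex is in `S` (walk along the boundary cycle, both directions or using the period), so `conn` gives all faces; `cover`. -/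
def GCO_stmt : Prop := ∀ (V F : Type) (M : PMap V F) (u v : V),
  ∃ (n : ℕ) (q : ℕ → V), q 0 = u ∧ q n = v ∧ ∀ i, i < n → Adj M.toCyc (q i) (q (i + 1))

/-- Hyp.: EDG, ARM, GCO. No face at `x` meets a face at `y`. Take walks (GCO) `q 0, ..., q l` in the graph with `q 0 ≠ x` on a face
at `x` and `q l ≠ y` on a face at `y`, `l` minimal; then the `q i`, `i ≥ 1`, are on no face at `x`, the `q i`, `i < l`, are on no
face at `y`, the `q i` are distinct. (A walk from `x` to `y` passes from the vertices on faces at `x`, all `≠ y`, to those on faces at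
`y`; such a walk exists.) With ARM (first part): a walk `a` on `A ∋ x` to `q 0`, a walk `b` on `B ∋ y` to `q l`; the path `a, q, b`
reversed. `A'∋ x` contains only `a`-vertices: all of them and their edges if `A' = A`, otherwise only `x` and possibly `a 1`
(`poly`); same for `y`. -/
def DIS_stmt : Prop := ∀ (V F : Type) (M : PMap V F) (x y : V),
  (∀ A B v, OnV M.toCyc A x → OnV M.toCyc B y → OnV M.toCyc A v → ¬ OnV M.toCyc B v) →
  WPath M.toCyc x y

/-- Hyp.: PCF, PCN, ROU, DIS. (`NRPath` implies `WPath`.) -/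
def WBD_stmt : Prop := ∀ (V F : Type) (M : PMap V F) (x y : V), ¬ WPath M.toCyc x y → WBad M x y

/-! ## Counting -/

/-- Hyp.: IDX, EDG, WW0. `A ∋ x` (no common face of `x`, `y`). Let `NB` = the faces `B ∋ y` meeting `A`, `EB` = those containing `w i` for an
extreme (first or last) shared index `i` of `A`. Either `#NB ≤ #EB` or `2 ≤ #EB`. Proof: `lo`, `hi` first and last shared index (all
common vertices of `A` with faces at `y` are `w k`, `k` shared, as `x` is on no such face). If there are no shared indices `NB = ∅`.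
`B1 ∋ w lo`, `B2 ∋ w hi`. If these can be chosen different: `2 ≤ #EB`. Otherwise a face `B` contains `w lo` and `w hi`: `lo = hi`, or by
`poly` `s(w lo, w hi)` is an edge of `A`, `hi = lo + 1` (IDX, `lo ≥ 1`); so `NB ⊆ EB`. -/
def EXT_stmt : Prop := ∀ (V F : Type) [Fintype V] [Fintype F] (M : PMap V F) (x y : V) (A : F),
  (∀ f, ¬ (OnV M.toCyc f x ∧ OnV M.toCyc f y)) → OnV M.toCyc A x →
  (univ.filter (fun B => OnV M.toCyc B y ∧ ∃ v, OnV M.toCyc A v ∧ OnV M.toCyc B v)).card ≤
    (univ.filter (fun B => OnV M.toCyc B y ∧ ∃ i, ext M y x A i ∧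
      OnV M.toCyc B (ww M x A i))).card ∨
  2 ≤ (univ.filter (fun B => OnV M.toCyc B y ∧ ∃ i, ext M y x A i ∧
      OnV M.toCyc B (ww M x A i))).card

/-- Hyp.: none. A `0/1` matrix `R` on `X × Y` without zero lines; every line `A ∈ X` has a set `EA` of entries, containing all entries of the
line or at least two; the same for the columns, `EB`; `EA` and `EB` are disjoint. Call a line single if it has exactly one entry. A single
line `A` has its entry in `EA`, so not in `EB`, so its column is not single; the same for columns. Let `a`, `b` be the numbers of the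
lines and columns that are not single, `N'` the number of entries in these lines and columns. Entries of single lines (columns) are
exactly one each, different. `N' ≥ 2a + 2b` (the `EA` entries of a not single line are in columns that are not single: a single column
has its entry in `EB`), `N' ≤ a b`. If `a = 0` or `b = 0`: both are `0`, impossible (an entry exists, its line and its column would be
single). So `(a-2)(b-2) ≥ 4`, `a + b ≥ 8`, `N = N' + (#X - a) + (#Y - b) ≥ #X + #Y + a + b`. -/
def MAT_stmt : Prop := ∀ (F : Type) (X Y : Finset F) (R EA EB : F → F → Prop),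
  X.Nonempty →
  (∀ A ∈ X, ∀ B ∈ Y, EA A B → R A B) → (∀ A ∈ X, ∀ B ∈ Y, EB A B → R A B) →
  (∀ A ∈ X, ∃ B ∈ Y, R A B) → (∀ B ∈ Y, ∃ A ∈ X, R A B) →
  (∀ A ∈ X, (Y.filter (fun B => R A B)).card ≤ (Y.filter (fun B => EA A B)).card ∨
    2 ≤ (Y.filter (fun B => EA A B)).card) →
  (∀ B ∈ Y, (X.filter (fun A => R A B)).card ≤ (X.filter (fun A => EB A B)).card ∨
    2 ≤ (X.filter (fun A => EB A B)).card) →
  (∀ A ∈ X, ∀ B ∈ Y, ¬ (EA A B ∧ EB A B)) →
  X.card + Y.card + 8 ≤ ((X ×ˢ Y).filter (fun p => R p.1 p.2)).card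

/-- Hyp.: EXT, MAT (WW0). `X = FA M x y`, `Y = FA M y x`, `R A B` = common vertex, `EA A B` = `∃ i, ext M y x A i ∧ w i ∈ B`,
`EB A B` = `∃ j, ext M x y B j ∧ w j ∈ A`; EXT for `(x, y)` and `(y, x)`; `wb`; `me`. -/
def G8W_stmt : Prop := ∀ (V F : Type) [Fintype V] [Fintype F] (M : PMap V F) (x y : V),
  WBad M x y → 8 ≤ ZZ M x y

/-- Hyp.: EDG, DEG. Number of the meeting pairs = shared vertices + shared neighbours of `y` + shared neighbours of `x` - shared edges.
For a pair `(A, B)` of `PR`, `A ∩ B` is one vertex (no common edge) or two vertices and one common edge (`poly`; an edge has distinct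
ends). `∑_(A,B) #(vertices of A ∩ B) = ∑_v #{A ∋ x, v} #{B ∋ y, v}`, for a shared vertex `v` the factors are `2` or `1` according to `v`
adjacent to `x` (`y`) or not (DEG (1), (2)); not both `2` by `ns`. A shared edge is on exactly one face at `x` and one face at `y`
(`two`, `ne`). -/
def PRC_stmt : Prop := ∀ (V F : Type) [Fintype V] [Fintype F] (M : PMap V F) (x y : V), NF M x y →
  ((PR M x y).card : ℤ) = ((univ.filter (fun v => shv M x y v)).card : ℤ) + (sp M x y).card +
    (sp M y x).card - (univ.filter (fun e => she M x y e)).card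

/-- Hyp.: IDX, EDG, DEG, WW0. Segments of the faces `B ∋ y`: `B ∈ FA M y x` has `hi - lo + 1` vertices and `hi - lo` edges in its segment
(`w` is injective on `[0, len B)`); the others have none. The edges for different `B`, `B'` are different (they do not contain `y`, and a
common edge of `B`, `B'` contains `y` by `poly`). A vertex in the segments of `B` and `B' ≠ B` is adjacent to `y` (`poly`), so its index is
`1` or `len - 1`, and it is in the segment only if it is shared; a shared neighbour of `y` is on exactly two faces at `y` (DEG (2)). So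
`#edges - #vertices = #(shared neighbours of y) - #FA M y x`. -/
def SEG_stmt : Prop := ∀ (V F : Type) [Fintype V] [Fintype F] (M : PMap V F) (x y : V), NF M x y →
  ((univ.filter (fun e => sgE M x y e)).card : ℤ) - ((univ.filter (fun v => sgV M x y v)).card : ℤ) =
    ((sp M x y).card : ℤ) - (FA M y x).card

/-- Hyp.: IDX, EDG, WW0. (1) The common edges of the two kinds of segments are exactly the shared edges, the common vertices are exactly the
shared vertices. (An edge of `sgE M x y` is on a face at `y`. A shared edge `s(w k, w (k+1))` of `B ∋ y`, `y ∉ e` by `ne`, has both ends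
shared, `1 ≤ k`, `k + 1 < len B`.) (2) The edges of the segments of `B` contain neither `x` nor `y`. (3) They are edges of the map, their ends
are in `sgV`; ends of an edge of the map. -/
def INT_stmt : Prop := ∀ (V F : Type) (M : PMap V F) (x y : V),
  (∀ f, ¬ (OnV M.toCyc f x ∧ OnV M.toCyc f y)) →
  (∀ e, (sgE M x y e ∧ sgE M y x e) ↔ she M x y e) ∧
  (∀ v, (sgV M x y v ∧ sgV M y x v) ↔ shv M x y v) ∧
  (∀ e, sgE M x y e → x ∉ e ∧ y ∉ e ∧ onF M y e ∧ IsE M.toCyc e ∧ ∀ v ∈ e, sgV M x y v)

/-- Hyp.: PRC, SEG, INT. Inclusion and exclusion: `|U| = |sgE M x y| + |sgE M y x| - |she|`, the same for the vertices. -/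
def CNW_stmt : Prop := ∀ (V F : Type) [Fintype V] [Fintype F] (M : PMap V F) (x y : V), NF M x y →
  ((univ.filter (fun e => UU M x y e)).card : ℤ) - ((univ.filter (fun v => VV M x y v)).card : ℤ) =
    ZZ M x y

/-- Hyp.: IDX, EDG, DEG, WW0. Number of the gaps of the faces `B ∋ y`. For `B ∈ FA M y x` with `V_B` shared indices, `E_B` = shared edges on
`B`: all shared indices but the last have a later one; those `k` with `s(w k, w (k+1))` on a face at `x` are `E_B` many (both ends shared);
so `V_B - 1 - E_B` gaps. `∑ V_B` = shared vertices + shared neighbours of `y` (each of these is on two faces at `y`, the other shared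
vertices on one: DEG (1), (2)); `∑ E_B` = shared edges. -/
def GCW_stmt : Prop := ∀ (V F : Type) [Fintype V] [Fintype F] (M : PMap V F) (x y : V), NF M x y →
  ((gps M x y).card : ℤ) = ((univ.filter (fun v => shv M x y v)).card : ℤ) + (sp M x y).card -
    (univ.filter (fun e => she M x y e)).card - (FA M y x).card

/-- Hyp.: IDX, EDG, DEG, WW0. Each `A ∈ FA M x y` has exactly one first and one last shared index (other faces at `x` have none), so
`∑ rr v = 2 #FA M x y - #{A : 1 shared} - #{A : len A - 1 shared}` (if `1` is shared it is the first, if `len A - 1` is shared it is the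
last; `len A - 1 ≥ 2`). The last two numbers together count the pairs (`A ∋ x`, shared neighbour `s` of `x` on `A`) (the neighbours of `x` on `A` are
`w 1` and `w (len A - 1)`, IDX), and each shared neighbour is on exactly two faces at `x` (DEG (2)). -/
def RRE_stmt : Prop := ∀ (V F : Type) [Fintype V] [Fintype F] (M : PMap V F) (x y : V), NF M x y →
  ∑ v, rr M x y v + 2 * (sp M y x).card = 2 * (FA M x y).card

/-! ## Classes -/

/-- Hyp.: none. `UU M x y = UU M y x` (`funext`, `or_comm`), so the classes are the same. -/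
def SYW_stmt : Prop := ∀ (V F : Type) (M : PMap V F) (x y : V),
  UU M x y = UU M y x ∧ (∀ f g, CL M x y f g ↔ CL M y x f g) ∧ ∀ g, oth M x y g ↔ oth M y x g

/-- Hyp.: EDG, INT. All faces at `x` are in one class, all faces at `y` are in one class: the edges at `x` (at `y`) are not in `U` (INT (2)
for `(x, y)` and `(y, x)`); `link` at `x` for the set of the faces of one class. -/
def XCW_stmt : Prop := ∀ (V F : Type) (M : PMap V F) (x y : V),
  (∀ f, ¬ (OnV M.toCyc f x ∧ OnV M.toCyc f y)) →
  (∀ A A', OnV M.toCyc A x → OnV M.toCyc A' x → CL M x y A A') ∧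
  ∀ B B', OnV M.toCyc B y → OnV M.toCyc B' y → CL M x y B B'

/-- Hyp.: IDX, EDG, PAR, WW0. Walk DOWN along `B ∋ y`, on the other side of `B`, to the gap below. Induction on `k`. If `k` is shared: `k1 = k`,
`g' = g`. Otherwise `lo < k < hi`, so `1 < k < len B - 1`; `w k` is on no face at `x`, and `B` is the only face at `y` containing it
(otherwise `poly` gives the edge `s(y, w k)` of `B`, IDX: no). So an edge of `U` at `w k` is on `B`: it is `s(w (k-1), w k)` or
`s(w k, w (k+1))`. Let `S` = faces `≠ B` in the class of `g`. An edge at `w k` which separates `S` (one face in `S`, one not) is in `U` or its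
other face is `B` (faces linked outside `U` are in one class), so it is one of these two. The second one is separating (`g`, `B`), so by PAR the
first one is too: it has a face `g' ∈ S`; it is not on a face at `x`; `inb (k - 1)`. -/
def WDN_stmt : Prop := ∀ (V F : Type) [Fintype V] [Fintype F] (M : PMap V F) (x y : V),
  (∀ f, ¬ (OnV M.toCyc f x ∧ OnV M.toCyc f y)) → ∀ B, OnV M.toCyc B y → ∀ k, inb M x y B k →
  ¬ onF M x s(ww M y B k, ww M y B (k + 1)) → ∀ g, g ≠ B →
  OnE M.toCyc g s(ww M y B k, ww M y B (k + 1)) →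
  ∃ k1, k1 ≤ k ∧ (∀ i, k1 < i → i ≤ k → ¬ sh M x y B i) ∧ gp M x y B k1 ∧
    ∃ g', g' ≠ B ∧ OnE M.toCyc g' s(ww M y B k1, ww M y B (k1 + 1)) ∧ CL M x y g' g

/-- Hyp.: as WDN. Walk UP (mirror image of WDN, induction on `hi - k`). -/
def WUP_stmt : Prop := ∀ (V F : Type) [Fintype V] [Fintype F] (M : PMap V F) (x y : V),
  (∀ f, ¬ (OnV M.toCyc f x ∧ OnV M.toCyc f y)) → ∀ B, OnV M.toCyc B y → ∀ k, inb M x y B k →
  ¬ onF M x s(ww M y B k, ww M y B (k + 1)) → ∀ g, g ≠ B →
  OnE M.toCyc g s(ww M y B k, ww M y B (k + 1)) →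
  ∃ k2, k < k2 ∧ sh M x y B k2 ∧ (∀ i, k < i → i < k2 → ¬ sh M x y B i) ∧
    ∃ g', g' ≠ B ∧ OnE M.toCyc g' s(ww M y B (k2 - 1), ww M y B k2) ∧ CL M x y g' g

/-- Hyp.: EDG, DEG, PAR, INT. At a shared vertex `v`: from a face `g0` (class without faces at `x`, `y`) across an edge `e ∋ v`, `x ∉ e`, of a face
at `x`, to an edge `h ∋ v` of a segment of some `B ∋ y`, not on a face at `x`, with a face in the class of `g0`. Proof: `S` = class of `g0`.
Separating edges of `S` at `v` are in `U` (otherwise linked), so they do not contain `x` (INT (2)), and if the claim is false each of them is on a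
face at `x` (those of `sgE M x y` otherwise satisfy the claim; those of `sgE M y x` are on a face at `x`). There are exactly two edges at `v` on a face
at `x` and without `x` (DEG (5), `z = x`): `e`, `e'`; `e` is separating (a face at `x` is not in `S`), so by PAR `e'` is too. Let
`S2 = S ∪ {faces at x}`. No edge at `v` separates `S2`: `e`, `e'` have one face at `x` and one in `S`; an edge containing `x` has both faces at `x`
(EDG (2)...: a face containing the edge contains `x`); another edge is on no face at `x` and does not separate `S`. By `link` all faces at `v` are in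
`S2`, but a face `B ∋ y, v` is not in `S` (`oth`) and does not contain `x`. -/
def VXW_stmt : Prop := ∀ (V F : Type) [Fintype V] [Fintype F] (M : PMap V F) (x y : V),
  (∀ f, ¬ (OnV M.toCyc f x ∧ OnV M.toCyc f y)) → ∀ g0, oth M x y g0 → ∀ v, shv M x y v →
  ∀ e, v ∈ e → x ∉ e → onF M x e → (∃ g, OnE M.toCyc g e ∧ CL M x y g g0) →
  ∃ B k g, OnV M.toCyc B y ∧ inb M x y B k ∧ v ∈ s(ww M y B k, ww M y B (k + 1)) ∧
    ¬ onF M x s(ww M y B k, ww M y B (k + 1)) ∧
    OnE M.toCyc g s(ww M y B k, ww M y B (k + 1)) ∧ CL M x y g g0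

/-- Hyp.: WDN, VXW, SYW, INT, EDG. There is an edge of a segment of some `A ∋ x`, not on a face at `y`, with a face in the class `S` of `g0`. By `conn`
some edge `e` has one face in `S` and one not in `S` (`g0 ∈ S`, a face at `x` is not; `cover`); `e` is in `U`. If `e` is `s(w i, w (i+1))` of
`A ∋ x`: its faces are `A ∉ S` and one in `S`, which is not a face at `y`. If `e = s(w k, w (k+1))` of `B ∋ y`: the same shows that it is not on
a face at `x`; WDN gives `k1` shared with a face in `S` on `s(w k1, w (k1+1))`; VXW for `(y, x)` (with SYW) at `v = w k1` gives the edge. -/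
def AED_stmt : Prop := ∀ (V F : Type) [Fintype V] [Fintype F] (M : PMap V F) (x y : V),
  (∀ f, ¬ (OnV M.toCyc f x ∧ OnV M.toCyc f y)) → ∀ g0, oth M x y g0 →
  ∃ A i g, OnV M.toCyc A x ∧ inb M y x A i ∧ ¬ onF M y s(ww M x A i, ww M x A (i + 1)) ∧
    OnE M.toCyc g s(ww M x A i, ww M x A (i + 1)) ∧ CL M x y g g0

/-- Hyp.: IDX, EDG, WW0, INT, SYW, WDN, WUP, VXW, AED. Every class without faces at `x`, `y` is across two different gaps of faces at `y`. AED:
`A`, `i`, `g`. WDN and WUP for `(y, x)`, `A`, `i` (SYW) give `i1 ≤ i < i2`, both shared, no shared index strictly between them, with faces in the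
class of `g0` on `s(w i1, w (i1+1))` and on `s(w (i2-1), w i2)`; `v1 = w i1 ≠ v2 = w i2`. VXW at `v1` gives `B`, `k`, WDN a gap `(B, k1)`, `k1 ≤ k`, across the
class (the face of VXW is not `B` as the class has no face at `y`); `v1 = w k` (then `k1 = k`) or `v1 = w (k+1)`, so `v1` is `w k1` or `w k2`,
`k2` = the first shared index above `k1`. The same for `v2`. If the two gaps are equal: `{v1, v2} = {w k1, w k2} ⊆ A ∩ B`, by `poly` `s(v1, v2)` is an edge of
`A` and of `B`; IDX for `A`: `i2 = i1 + 1`, so `i = i1` and `s(w i, w (i+1))` is on `B ∋ y`, against AED. -/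
def CLW_stmt : Prop := ∀ (V F : Type) [Fintype V] [Fintype F] (M : PMap V F) (x y : V),
  (∀ f, ¬ (OnV M.toCyc f x ∧ OnV M.toCyc f y)) → ∀ g0, oth M x y g0 →
  ∃ c1 ∈ gps M x y, ∃ c2 ∈ gps M x y, c1 ≠ c2 ∧
    (∃ g, OnE M.toCyc g (ge M y c1) ∧ CL M x y g g0) ∧
    (∃ g, OnE M.toCyc g (ge M y c2) ∧ CL M x y g g0)

/-- Hyp.: CLW, EDG, WW0. Counting: the edge `ge c` of a gap `c = (B, k)` has two faces, `B ∋ y` and one more, so at most one class without faces at `x`,
`y` is across `c`, and then `go c`. -/
def OT1_stmt : Prop := ∀ (V F : Type) [Fintype V] [Fintype F] (M : PMap V F) (x y : V),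
  (∀ f, ¬ (OnV M.toCyc f x ∧ OnV M.toCyc f y)) →
  2 * Nat.card {q : Quot (lk M (UU M x y)) // ∃ g, Quot.mk _ g = q ∧ oth M x y g} ≤
    ((gps M x y).filter (fun c => go M x y c)).card

/-- Hyp.: IDX, EDG, DEG, PAR, WW0, INT, XCW. A vertex `v` with `rr v ≥ 1`: `v = w i`, `i` extreme for some `A ∋ x`, so `v` is shared and by `wb` `v` is not extreme
on any `B ∋ y, v`; hence `v` is not adjacent to `y` (else its index on `B` is `1` or `len B - 1`), `v` is on exactly one `B ∋ y`, with index strictly between two
shared ones: both edges `h1 ≠ h2` of `B` at `v` are in `sgE M x y`. Let `e1`, `e2` be the two edges at `v` on faces at `x` and without `x` (DEG (5)). CLAIM: the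
number of them outside `U` is at least `rr v` (at most 2 summands): if `i ≠ 1` is the first shared index of `A`, `e = s(w (i-1), w i)` does not contain `x`, is on no face at
`y` (else `i - 1` is shared) and on no other face at `x` (`poly`), so not in `U`; if `i ≠ len A - 1` is the last one, the same for `s(w i, w (i+1))`; the edges for
different summands are different (same `A`: the two different edges at `v`; different `A`, `A'`: a common edge would contain `x`). Let `S` = faces not containing `y` in the class of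
the faces at `x` (XCW). A separating edge of `S` at `v` is in `U` or on a face at `y` (and not containing `y`), so it is in `U` or in `{h1, h2}`: it is `h1`, `h2` or one of
`e1`, `e2` in `U`. A face `A ∋ x, v` is in `S`, the face `B` is not; so by `link` at least one edge at `v` is separating, by PAR at least two. `rr v = 2`: `e1, e2 ∉ U`, so `h1`,
`h2` are separating, not on faces at `x`; their faces are `B` and one in `S`: both are in `HX`. `rr v = 1`, `e1 ∉ U`: at least one of `h1`, `h2` which is not `e2` is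
separating (two separating edges, at most `e2` and `h1`, `h2`; if `e2 = h2` then `h1`), it is not on a face at `x`: it is in `HX`. -/
def VRI_stmt : Prop := ∀ (V F : Type) [Fintype V] [Fintype F] (M : PMap V F) (x y : V),
  WBad M x y → ∀ v, rr M x y v ≤ (HX M x y v).card

/-- Hyp.: IDX, EDG, WW0, WDN, INT. `h ∈ HX v`: `h = s(w k, w (k+1))`, `inb k`, on `B ∋ y` and on `g ≠ B`. If `v = w k`: `(B, k)` is a gap (`v` is shared, `1 ≤ k < len B`).
If `v = w (k+1)`: WDN gives a gap `(B, k1)`, `k1 ≤ k`, no shared index in `(k1, k]`, with a face `g'` in the class of `g` on its first edge. In both cases `¬ go`: the two faces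
of `ge c` are `B ∋ y` and one in the class of a face at `x`. Map `(v, h)` to `(gap, lower / upper end)`; this is injective: lower end: `v = w k1`, `h = ge c`; upper end: with
`k2` = the first shared index above `k1`: `v = w k2`, `h = s(w (k2-1), w k2)` (`k + 1 = k2` as `k + 1` is shared: `v` is shared and `v ≠ y`, so `k + 1 < len B`). -/
def HXG_stmt : Prop := ∀ (V F : Type) [Fintype V] [Fintype F] (M : PMap V F) (x y : V), NF M x y →
  ∑ v, (HX M x y v).card ≤ 2 * ((gps M x y).filter (fun c => ¬ go M x y c)).card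

/-- Hyp.: XCW, OT1, VRI, HXG, RRE, GCW, PRC. `#classes ≤ 2 + #(classes without faces at x, y)` (XCW); `2 #(these) ≤ #{gaps with go} = #gps - #{gaps with ¬ go}
≤ #gps - (#FA M x y - #sp M y x) = ZZ`. -/
def CCW_stmt : Prop := ∀ (V F : Type) [Fintype V] [Fintype F] (M : PMap V F) (x y : V),
  WBad M x y → 2 * (Nat.card (Quot (lk M (UU M x y))) : ℤ) ≤ 4 + ZZ M x y

/-- Hyp.: LIN, CNW, CCW, INT. LIN with `U = UU`, `W = VV` (nonempty: `me`, a shared vertex is in `VV` by INT (1)): `χ + |U| - |W| ≤ #classes`, `|U| - |W| = ZZ`. -/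
def TPW_stmt : Prop := ∀ (V F : Type) [Fintype V] [Fintype F] (M : PMap V F) (x y : V),
  WBad M x y → 2 * chi M.toCyc + ZZ M x y ≤ 4

/-- Hyp.: WBD, G8W, TPW. -/
def FNW_stmt : Prop := ∀ (V F : Type) [Fintype V] [Fintype F] (M : PMap V F), -1 ≤ chi M.toCyc →
  ∀ x y : V, WPath M.toCyc x y

end Pool.Agent.helper81.NW
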